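import Pool.Agent.R226.PFCore

/-!
MP_56a44b_nt, Q1 (answer: yes).

Every open subset of `[0,1]` of Lebesgue measure larger than `1/3` contains `x, y, z` with
`x y = z`; in other words an open product-free subset of `[0,1]` has measure at most `1/3`.

Open is meant relative to `[0,1]` (`A = U ∩ [0,1]` with `U` open in the real line), which
includes the sets `A ⊆ [0,1]` that are open in the real line (take `U = A`).

Idea of the proof. In the logarithmic scale the set is approximated from inside by the cells
`[r^(k+1), r^k]`, `k ∈ K`, where `K` contains no solution of `c = a + b` and of `c = a + b + 1`.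
The second order count `F(n) = ∑_{k < n} (1/3 - 1_K(k)) (2 (n - k) - 1)` is shown to be
non-negative by induction: there are always `d, e ≥ 1` with `d + e ≤ n` such that the translates
by `0`, `d`, `d + e` of the symmetric cell set are disjoint on `[-n, n]`, so that
`F(|x|) + F(|x - d|) + F(|x - d - e|)` is convex there, and this convexity gives
`F(n) ≥ min (F(|n - d - 2e|), F(|n - 2d - e|))`.  Summing `F(n) r^n` gives the bound.
-/

namespace Pool.Agent.Results.MP_56a44b_nt.OpenProductFree

open MeasureTheory Set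
open Pool.Agent.R226.PF

/-- An open subset of the unit interval with measure larger than one third is not
product-free. -/
theorem result (A : Set ℝ) (hA : ∃ U : Set ℝ, IsOpen U ∧ A = U ∩ Set.Icc 0 1)
    (hμ : 1 / 3 < volume A) : ∃ x ∈ A, ∃ y ∈ A, ∃ z ∈ A, x * y = z := by
  classical
  by_contra hcon
  push Not at hcon
  obtain ⟨U, hU, rfl⟩ := hA
  set A := U ∩ Set.Icc (0 : ℝ) 1 with hAdef
  have h0 : (0 : ℝ) ∉ A := fun h => hcon 0 h 0 h 0 h (by norm_num)
  have h1 : (1 : ℝ) ∉ A := fun h => hcon 1 h 1 h 1 h (by norm_num)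
  have hAV : A = U ∩ Set.Ioo (0 : ℝ) 1 := by
    ext x
    constructor
    · intro hx
      refine ⟨hx.1, lt_of_le_of_ne hx.2.1 ?_, lt_of_le_of_ne hx.2.2 ?_⟩
      · intro h; rw [← h] at hx; exact h0 hx
      · intro h; rw [h] at hx; exact h1 hx
    · intro hx
      exact ⟨hx.1, hx.2.1.le, hx.2.2.le⟩
  have hAo : IsOpen A := by rw [hAV]; exact hU.inter isOpen_Ioo
  have hA01 : ∀ x ∈ A, 0 < x ∧ x < 1 := by
    intro x hx; rw [hAV] at hx; exact hx.2
  obtain ⟨C, hCA, hC, hCμ⟩ := hAo.exists_lt_isCompact hμ
  obtain ⟨δ, hδ, hδA⟩ := hC.exists_cthickening_subset_open hAo hCA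
  set r : ℝ := max (1 / 2) (1 - δ) with hr
  have hr0 : 0 < r := lt_of_lt_of_le (by norm_num) (le_max_left _ _)
  have hr1 : r < 1 := max_lt (by norm_num) (by linarith)
  have hrδ : 1 - r ≤ δ := by
    have := le_max_right (1 / 2) (1 - δ)
    rw [← hr] at this
    linarith
  set K : Set ℕ := {k | Set.Icc (r ^ (k + 1)) (r ^ k) ⊆ A} with hK
  have hpow : ∀ k : ℕ, r ^ (k + 1) ≤ r ^ k := fun k =>
    pow_le_pow_of_le_one hr0.le hr1.le (Nat.le_succ k)
  have hSF : SF K := by
    intro a ha b hb c hc
    have ha' : r ^ a ∈ A := ha ⟨hpow a, le_rfl⟩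
    have ha'' : r ^ (a + 1) ∈ A := ha ⟨le_rfl, hpow a⟩
    have hb' : r ^ b ∈ A := hb ⟨hpow b, le_rfl⟩
    have hc' : r ^ c ∈ A := hc ⟨hpow c, le_rfl⟩
    constructor
    · intro h
      apply hcon _ ha' _ hb' _ hc'
      rw [h, pow_add]
    · intro h
      apply hcon _ ha'' _ hb' _ hc'
      rw [h, ← pow_add]
      congr 1
      omega
  obtain ⟨hsum, hle⟩ := tsum_ind_le hSF hr0 hr1
  -- cover
  have hcov : C ⊆ ⋃ k : ℕ, (if k ∈ K then Set.Ioc (r ^ (k + 1)) (r ^ k) else ∅) := by
    intro x hx
    have hx01 := hA01 x (hCA hx)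
    obtain ⟨k, hk1, hk2⟩ := exists_nat_pow_near_of_lt_one hx01.1 hx01.2.le hr0 hr1
    rw [Set.mem_iUnion]
    refine ⟨k, ?_⟩
    have hkK : k ∈ K := by
      rw [hK]
      intro y hy
      apply hδA
      apply Metric.mem_cthickening_of_dist_le y x δ C hx
      rw [Real.dist_eq]
      have h2 : r ^ k - r ^ (k + 1) ≤ δ := by
        have : r ^ k - r ^ (k + 1) = r ^ k * (1 - r) := by ring
        rw [this]
        have h3 : r ^ k ≤ 1 := pow_le_one₀ hr0.le hr1.le
        calc r ^ k * (1 - r) ≤ 1 * (1 - r) :=
              mul_le_mul_of_nonneg_right h3 (by linarith)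
          _ ≤ δ := by linarith
      rw [abs_le]
      constructor
      · linarith [hy.1, hk2]
      · linarith [hy.2, hk1]
    rw [if_pos hkK]
    exact ⟨hk1, hk2⟩
  have hvol : volume C ≤ 1 / 3 := by
    calc volume C ≤ volume (⋃ k : ℕ, (if k ∈ K then Set.Ioc (r ^ (k + 1)) (r ^ k) else ∅)) :=
          measure_mono hcov
      _ ≤ ∑' k : ℕ, volume (if k ∈ K then Set.Ioc (r ^ (k + 1)) (r ^ k) else ∅) :=
          measure_iUnion_le _
      _ = ∑' k : ℕ, ENNReal.ofReal ((1 - r) * (ind K k * r ^ k)) := by
          congr 1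
          funext k
          by_cases hk : k ∈ K
          · rw [if_pos hk, Real.volume_Ioc]
            congr 1
            unfold ind
            rw [if_pos hk]
            ring
          · rw [if_neg hk]
            unfold ind
            rw [if_neg hk]
            simp
      _ = ENNReal.ofReal (∑' k : ℕ, (1 - r) * (ind K k * r ^ k)) := by
          rw [ENNReal.ofReal_tsum_of_nonneg]
          · intro k
            have h2 : 0 ≤ ind K k := by unfold ind; split_ifs <;> norm_num
            exact mul_nonneg (by linarith) (mul_nonneg h2 (pow_nonneg hr0.le k))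
          · exact hsum.mul_left _
      _ ≤ ENNReal.ofReal (1 / 3) := by
          apply ENNReal.ofReal_le_ofReal
          rw [tsum_mul_left]
          exact hle
      _ = 1 / 3 := by
          rw [ENNReal.ofReal_div_of_pos (by norm_num)]
          simp
  exact absurd hCμ (not_lt.mpr hvol)

end Pool.Agent.Results.MP_56a44b_nt.OpenProductFree
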